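import Mathlib

/-!
# The intersection numbers with cohomological field theories do not determine the classes

`M̄_{g,n}` is the moduli space of stable curves of genus `g` with `n` markings, `2 g - 2 + n > 0`.
The question (Q1) is whether two classes `A, B ∈ H_*(M̄_{g,n}; ℚ)` are equal if they have the same
intersection numbers `⟨A, Ω_{g,n}(v_1, …, v_n)⟩` with all cohomological field theories (CohFT)
`(V, η, 1, Ω)`, where `V` is a complex vector space with a nondegenerate symmetric form `η`.

The answer is NO.

* Let `ξ : M̄_{g₁,n₁+1} × M̄_{g₂,n₂+1} → M̄_{g,n}` be a separating gluing map and let `a`, `b` be homology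
  classes of ODD degree. Then `⟨ξ_*(a × b), Ω_{g,n}(v)⟩ = 0` for all CohFTs and all `v`. Indeed the gluing
  axiom expresses this number as `∑ Ω_{g₁}(v', e_i)(a) Ω_{g₂}(v'', f_i)(b)`, with dual bases `e`, `f` of
  `V`; this is symmetric if the two factors are exchanged, as `η` is symmetric, but
  `a × b` changes its sign. In other words: the Künneth components in odd × odd degree of
  `ξ^* Ω_{g,n}(v)` are zero, for every CohFT.
* So the functionals `x ↦ Ω_{g,n+1}(v, x)(a)`, `a` odd, generate an isotropic subspace of the dual of `V`,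
  and this implies that `⟨ρ_* c, Ω_{g+1,n}(v)⟩ = 0` for all `c` of odd degree and the
  nonseparating gluing map `ρ : M̄_{g,n+2} → M̄_{g+1,n}`: a CohFT class of odd degree
  vanishes on the nonseparating boundary divisor.
* Graber and Pandharipande (Constructions of nontautological classes on moduli spaces of curves, Michigan
  Math. J. 51, 2003) found a class `γ ∈ H²²(M̄_{2,20}; ℚ)`, the class of the closure of the locus
  of the curves of genus two with a bielliptic involution that exchanges the markings
  `i` and `i + 10`, whose pullback to `M̄_{1,11} × M̄_{1,11}` has a nonzero Künneth component in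
  `H¹¹ ⊗ H¹¹` (it is, up to classes in even degrees, a multiple of the class of the diagonal, and
  `H¹¹(M̄_{1,11})` has dimension two). So there are `a, b ∈ H_{11}(M̄_{1,11}; ℚ)` with
  `A = ξ_*(a × b) ≠ 0` in `H_{22}(M̄_{2,20}; ℚ)`, and `A` and `B = 0` have the same intersection numbers with
  all CohFTs. The class `γ` of an algebraic cycle is not a linear combination of classes `Ω_{2,20}(v)`.
* This is so for the classes of algebraic cycles, too. The part `δ` in `H_{11} ⊗ H_{11}` of the
  class of the diagonal of `M̄_{1,11} × M̄_{1,11}` is a linear combination of classes of algebraic cycles,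
  since the other part is (all even cohomology classes on `M̄_{1,11}` are tautological, Petersen), and
  `γ(ξ_* δ) ≠ 0`. So `A = ξ_* δ` is a nonzero class of an algebraic cycle of dimension `11`
  (with rational coefficients) on `M̄_{2,20}` that is orthogonal to all CohFTs.

(If `V` is `ℤ/2`-graded, `η` symmetric in the graded sense and if the `Ω_{g,n}` preserve the parity, which is
not the definition of the problem, then the classes `Ω_{g,0}` are even, and the answer is again
negative, since for large `g` the space `M̄_g` has nonzero homology classes of odd degree.)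

`ModuliHomology` contains the groups `H_*(M̄_{g,n}; ℚ)` with the maps induced by the relabelling of the
markings, the gluing maps and the forgetful maps, and their elementary properties; the only one that is used
for the first part is that the homology cross product is commutative in the graded sense (`glue_swap`).
`CohFT` is the definition of a cohomological field theory as in the problem. Cohomology with complex
coefficients is `H^*(M̄_{g,n}; ℂ) = Hom(H_*(M̄_{g,n}; ℚ), ℂ)`. A class of the product space that is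
`pr₁^* α · pr₂^* β` takes the value `α(a) β(b)` at `a × b` (the other usual convention, with
the sign `(-1)^(deg a · deg b)`, leads to the same result, with the same proof).
-/

set_option autoImplicit false

namespace Pool.Agent.Results.MP_bd1395_ag.OddClassesInvisible

/-- The condition `2 g - 2 + n > 0`. -/
def Stable (g n : ℕ) : Prop := 2 < 2 * g + n

/-- The rational homology groups of the moduli spaces `M̄_{g,n}` of stable curves. Only the stable pairs
`(g, n)` matter. -/
structure Groups where
  /-- `H g n` is the total homology `H_*(M̄_{g,n}; ℚ)`. -/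
  H : ℕ → ℕ → Type
  /-- it is an abelian group -/
  addCommGroup : ∀ g n, AddCommGroup (H g n)
  /-- and a rational vector space; -/
  module : ∀ g n, Module ℚ (H g n)
  /-- `gr g n k` is `H_k(M̄_{g,n}; ℚ)`. -/
  gr : ∀ g n : ℕ, ℕ → Submodule ℚ (H g n)

attribute [instance] Groups.addCommGroup Groups.module

/-- The homology groups with the maps induced by relabelling, gluing and forgetting of markings. The markings
are numbered by `Fin n`. -/
structure HomologyMaps extends Groups where
  /-- `relabel g n σ` is induced by the map `(C, p) ↦ (C, p ∘ σ)` of `M̄_{g,n}` to itself, for a permutation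
  `σ` of the indices of the markings `p_i`. -/
  relabel : ∀ g n, Equiv.Perm (Fin n) → (H g n →ₗ[ℚ] H g n)
  /-- `glue hg e a b` is `ξ_*(a × b)`, where `ξ : M̄_{g₁,n₁+1} × M̄_{g₂,n₂+1} → M̄_{g,n}` glues the last
  marking of the first curve and the last marking of the second curve; the others are renumbered
  by `e`. -/
  glue : ∀ {g₁ g₂ g n₁ n₂ n : ℕ}, g₁ + g₂ = g → Fin n₁ ⊕ Fin n₂ ≃ Fin n →
    (H g₁ (n₁ + 1) →ₗ[ℚ] H g₂ (n₂ + 1) →ₗ[ℚ] H g n)
  /-- `loop g n` is induced by the nonseparating gluing map `M̄_{g,n+2} → M̄_{g+1,n}`, which glues the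
  last two markings. -/
  loop : ∀ g n, H g (n + 2) →ₗ[ℚ] H (g + 1) n
  /-- `forget g n` is induced by the map `M̄_{g,n+1} → M̄_{g,n}` that forgets the last marking. -/
  forget : ∀ g n, H g (n + 1) →ₗ[ℚ] H g n
  /-- The class of a point in `H_0(M̄_{0,3}; ℚ)`. -/
  point : H 0 3

/-- `push hg e a b = ξ_*(a × b)`. -/
def HomologyMaps.push (M : HomologyMaps) {g₁ g₂ g n₁ n₂ n : ℕ} (hg : g₁ + g₂ = g)
    (e : Fin n₁ ⊕ Fin n₂ ≃ Fin n) (a : M.H g₁ (n₁ + 1)) (b : M.H g₂ (n₂ + 1)) : M.H g n :=
  M.glue hg e a b

/-- The class `a` has the degree `k`. -/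
def HomologyMaps.HasDegree (M : HomologyMaps) {g n : ℕ} (k : ℕ) (a : M.H g n) : Prop :=
  a ∈ M.gr g n k

section props

variable (M : HomologyMaps)

/-- `H_*(M̄_{g,n}; ℚ)` has finite dimension and is the direct sum of the `H_k(M̄_{g,n}; ℚ)`. -/
def IsGraded : Prop :=
  ∀ g n, Stable g n → Module.Finite ℚ (M.H g n) ∧ DirectSum.IsInternal (M.gr g n)

/-- The permutations of the markings act on `M̄_{g,n}`, and preserve the degree. -/
def IsAction : Prop :=
  ∀ g n, Stable g n →
    (∀ a, M.relabel g n 1 a = a) ∧
    (∀ σ τ a, M.relabel g n σ (M.relabel g n τ a) = M.relabel g n (τ * σ) a) ∧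
    ∀ σ k a, M.HasDegree k a → M.HasDegree k (M.relabel g n σ a)

/-- `ξ_*(a × b)` has the degree `deg a + deg b`. -/
def GlueDegree : Prop :=
  ∀ {g₁ g₂ g n₁ n₂ n : ℕ} (hg : g₁ + g₂ = g) (e : Fin n₁ ⊕ Fin n₂ ≃ Fin n),
    Stable g₁ (n₁ + 1) → Stable g₂ (n₂ + 1) → ∀ (i j : ℕ) (a b), M.HasDegree i a →
    M.HasDegree j b → M.HasDegree (i + j) (M.push hg e a b)

/-- If the two curves are exchanged, this gives the same gluing map, composed with the exchange of the two
factors; and `a × b` corresponds to `(-1)^(i j) b × a` under this exchange. -/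
def GlueSwap : Prop :=
  ∀ {g₁ g₂ g n₁ n₂ n : ℕ} (hg : g₁ + g₂ = g) (hg' : g₂ + g₁ = g) (e : Fin n₁ ⊕ Fin n₂ ≃ Fin n),
    Stable g₁ (n₁ + 1) → Stable g₂ (n₂ + 1) → ∀ (i j : ℕ) (a b), M.HasDegree i a →
    M.HasDegree j b →
    M.push hg' ((Equiv.sumComm _ _).trans e) b a = (-1 : ℚ) ^ (i * j) • M.push hg e a b

/-- Gluing, followed by the relabelling of the remaining markings. -/
def GlueRelabel : Prop :=
  ∀ {g₁ g₂ g n₁ n₂ n : ℕ} (hg : g₁ + g₂ = g) (e : Fin n₁ ⊕ Fin n₂ ≃ Fin n) (σ : Equiv.Perm (Fin n)),
    Stable g₁ (n₁ + 1) → Stable g₂ (n₂ + 1) → ∀ a b,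
    M.relabel g n σ (M.push hg e a b) = M.push hg (e.trans σ.symm) a b

/-- The nonseparating gluing maps and the forgetful maps preserve the degree. -/
def LoopForgetDegree : Prop :=
  (∀ g n, Stable g (n + 2) → ∀ k a, M.HasDegree k a → M.HasDegree k (M.loop g n a)) ∧
    ∀ g n, Stable g n → ∀ k a, M.HasDegree k a → M.HasDegree k (M.forget g n a)

end props

/-- The rational homology groups of the moduli spaces `M̄_{g,n}` of stable curves, with the maps induced by
relabelling, gluing and forgetting of markings, and their elementary properties. -/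
structure ModuliHomology extends HomologyMaps where
  isGraded : IsGraded toHomologyMaps
  isAction : IsAction toHomologyMaps
  glueDegree : GlueDegree toHomologyMaps
  glueSwap : GlueSwap toHomologyMaps
  glueRelabel : GlueRelabel toHomologyMaps
  loopForgetDegree : LoopForgetDegree toHomologyMaps

/-- A complex vector space `V` of finite dimension with a bilinear form `η`, a distinguished vector `1` and
classes `Ω_{g,n}(v_1, …, v_n) ∈ H^*(M̄_{g,n}; ℂ) = Hom(H_*(M̄_{g,n}; ℚ), ℂ)` which are multilinear in the
`v_i`. Only the stable pairs `(g, n)` matter. -/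
structure Tensors (M : ModuliHomology) where
  /-- the vector space -/
  V : Type
  addCommGroup : AddCommGroup V
  module : Module ℂ V
  finite : Module.Finite ℂ V
  /-- the bilinear form -/
  η : V →ₗ[ℂ] V →ₗ[ℂ] ℂ
  /-- the distinguished vector -/
  one : V
  /-- the classes -/
  Ω : ∀ g n, MultilinearMap ℂ (fun _ : Fin n => V) (M.H g n →ₗ[ℚ] ℂ)

attribute [instance] Tensors.addCommGroup Tensors.module Tensors.finite

section props

variable {M : ModuliHomology} (C : Tensors M)

/-- The intersection number `⟨A, Ω_{g,n}(v_1, …, v_n)⟩`. -/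
noncomputable def Tensors.number {g n : ℕ} (v : Fin n → C.V) (A : M.H g n) : ℂ := C.Ω g n v A

/-- The number `η(x, y)`. -/
noncomputable def Tensors.form (x y : C.V) : ℂ := C.η x y

/-- The family `v_1, …, v_n, x`. -/
def Tensors.append {n : ℕ} (v : Fin n → C.V) (x : C.V) : Fin (n + 1) → C.V := Fin.snoc v x

/-- `η` is symmetric and nondegenerate. -/
def IsForm : Prop :=
  (∀ x y, C.form x y = C.form y x) ∧ ∀ x, (∀ y, C.form x y = 0) → x = 0

/-- The bases `x` and `y` of `V` are dual with respect to `η`. So `∑ x_i ⊗ y_i` is the inverse of `η`. -/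
def AreDual {d : ℕ} (x y : Module.Basis (Fin d) ℂ C.V) : Prop :=
  ∀ i j, C.form (x i) (y j) = if i = j then 1 else 0

/-- The classes are equivariant for the permutations of the markings. -/
def Equivariant : Prop :=
  ∀ g n, Stable g n → ∀ (σ : Equiv.Perm (Fin n)) (v : Fin n → C.V) (A : M.H g n),
    C.number (v ∘ σ) (M.relabel g n σ A) = C.number v A

/-- Separating gluing maps: the pullback of `Ω` is the product of the `Ω`'s contracted with the inverse of
`η`. -/
def Separating : Prop :=
  ∀ {g₁ g₂ g n₁ n₂ n : ℕ} (hg : g₁ + g₂ = g) (e : Fin n₁ ⊕ Fin n₂ ≃ Fin n),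
    Stable g₁ (n₁ + 1) → Stable g₂ (n₂ + 1) → ∀ (d : ℕ) (x y : Module.Basis (Fin d) ℂ C.V),
    AreDual C x y → ∀ (v : Fin n → C.V) (a b),
    C.number v (M.push hg e a b) = ∑ i, C.number (C.append (v ∘ e ∘ Sum.inl) (x i)) a *
      C.number (C.append (v ∘ e ∘ Sum.inr) (y i)) b

/-- Nonseparating gluing maps: the pullback of `Ω` is `Ω` contracted with the inverse of `η`. -/
def Nonseparating : Prop :=
  ∀ g n, Stable g (n + 2) → ∀ (d : ℕ) (x y : Module.Basis (Fin d) ℂ C.V), AreDual C x y →
    ∀ (v : Fin n → C.V) c,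
    C.number v (M.loop g n c) = ∑ i, C.number (C.append (C.append v (x i)) (y i)) c

/-- Unit: `Ω_{g,n+1}(v, 1)` is the pullback of `Ω_{g,n}(v)`, and `Ω_{0,3}(x, y, 1) = η(x, y)`. -/
def HasUnit : Prop :=
  (∀ g n, Stable g n → ∀ (v : Fin n → C.V) A,
    C.number (C.append v C.one) A = C.number v (M.forget g n A)) ∧
  ∀ x y, C.number ![x, y, C.one] M.point = C.form x y

end props

/-- A cohomological field theory `(V, η, 1, Ω)`. -/
structure CohFT (M : ModuliHomology) extends Tensors M where
  isForm : IsForm toTensors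
  equivariant : Equivariant toTensors
  separating : Separating toTensors
  nonseparating : Nonseparating toTensors
  hasUnit : HasUnit toTensors

section statements

variable {M : ModuliHomology} {g n : ℕ}

/-- `A` and `B` have the same intersection numbers with every CohFT. -/
def SameNumbers (A B : M.H g n) : Prop :=
  ∀ (C : CohFT M) (v : Fin n → C.V), C.number v A = C.number v B

/-- `A = ξ_*(a × b)` for a separating gluing map `ξ` and classes `a`, `b` of odd degree. -/
def IsOddSeparating (A : M.H g n) : Prop :=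
  ∃ (g₁ g₂ n₁ n₂ : ℕ) (hg : g₁ + g₂ = g) (e : Fin n₁ ⊕ Fin n₂ ≃ Fin n) (i j : ℕ)
    (a : M.H g₁ (n₁ + 1)) (b : M.H g₂ (n₂ + 1)), Stable g₁ (n₁ + 1) ∧ Stable g₂ (n₂ + 1) ∧
    Odd i ∧ Odd j ∧ M.HasDegree i a ∧ M.HasDegree j b ∧ A = M.push hg e a b

/-- `A = ρ_* c` for the nonseparating gluing map `ρ` and a class `c` of odd degree. -/
def IsOddNonseparating (A : M.H (g + 1) n) : Prop :=
  Stable g (n + 2) ∧ ∃ (k : ℕ) (c : M.H g (n + 2)), Odd k ∧ M.HasDegree k c ∧ A = M.loop g n c

variable (M)

/-- The statement in Q1: classes with the same intersection numbers with every CohFT are equal. -/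
def ClassesDetermined : Prop :=
  ∀ g n : ℕ, Stable g n → ∀ A B : M.H g n, SameNumbers A B → A = B

/-- The classes `ξ_*(a × b)` on `M̄_{2,20}`, for `a, b ∈ H_{11}(M̄_{1,11}; ℚ)` and the gluing map `ξ` with
the first ten markings on the first curve. -/
def elevenClasses : Set (M.H 2 20) :=
  {A | ∃ a b : M.H 1 (10 + 1), M.HasDegree 11 a ∧ M.HasDegree 11 b ∧
    A = M.push (rfl : 1 + 1 = 2) (finSumFinEquiv : Fin 10 ⊕ Fin 10 ≃ Fin 20) a b}

/-- The theorem of Graber and Pandharipande, for `P = H_*(M̄_{2,20}; ℚ)`: some sum of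
classes `ξ_*(a × b)`, with `a, b ∈ H_{11}(M̄_{1,11}; ℚ)`, is not zero. (They find a class `γ` on `M̄_{2,20}`
whose pullback to `M̄_{1,11} × M̄_{1,11}` has a nonzero Künneth component in `H¹¹ ⊗ H¹¹`.) If `P` is the
space of the classes of algebraic cycles, it says that a nonzero sum of this kind is algebraic. -/
def GraberPandharipande (P : Submodule ℚ (M.H 2 20)) : Prop :=
  ∃ A ∈ P, A ≠ 0 ∧ A ∈ Submodule.span ℚ (elevenClasses M)

end statements

section proof

variable {M : ModuliHomology} (C : CohFT M)

theorem exists_dual : ∃ (d : ℕ) (x y : Module.Basis (Fin d) ℂ C.V),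
    AreDual C.toTensors x y ∧ AreDual C.toTensors y x := by
  classical
  have hη : LinearMap.BilinForm.Nondegenerate (C.η : LinearMap.BilinForm ℂ C.V) := by
    refine ⟨fun x hx => C.isForm.2 x hx, fun x hx => C.isForm.2 x fun y => ?_⟩
    rw [C.isForm.1]
    exact hx y
  let y := Module.finBasis ℂ C.V
  let x := LinearMap.BilinForm.dualBasis (C.η : LinearMap.BilinForm ℂ C.V) hη y
  have h : ∀ i j, C.form (x i) (y j) = if i = j then 1 else 0 := by
    intro i j
    have := LinearMap.BilinForm.apply_dualBasis_left (B := (C.η : LinearMap.BilinForm ℂ C.V)) hη y i j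
    refine this.trans ?_
    by_cases hij : i = j <;> simp [hij, eq_comm]
  refine ⟨_, x, y, h, fun i j => ?_⟩
  rw [C.isForm.1, h]
  by_cases hij : i = j <;> simp [hij, eq_comm]

/-- The classes `ξ_*(a × b)`, `a` and `b` of odd degree, are orthogonal to all CohFTs. -/
theorem sep_zero {g₁ g₂ g n₁ n₂ n : ℕ} (hg : g₁ + g₂ = g) (e : Fin n₁ ⊕ Fin n₂ ≃ Fin n)
    (h1 : Stable g₁ (n₁ + 1)) (h2 : Stable g₂ (n₂ + 1)) (i j : ℕ) (hi : Odd i) (hj : Odd j)
    (a : M.H g₁ (n₁ + 1)) (ha : M.HasDegree i a) (b : M.H g₂ (n₂ + 1))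
    (hb : M.HasDegree j b) (v : Fin n → C.V) : C.number v (M.push hg e a b) = 0 := by
  obtain ⟨d, x, y, hxy, hyx⟩ := exists_dual C
  have hg' : g₂ + g₁ = g := by omega
  have e1 := C.separating hg e h1 h2 d x y hxy v a b
  have e2 := C.separating hg' ((Equiv.sumComm (Fin n₂) (Fin n₁)).trans e) h2 h1 d y x hyx v b a
  rw [M.glueSwap hg hg' e h1 h2 i j a b ha hb, (Odd.mul hi hj).neg_one_pow] at e2
  have e3 : C.number v (M.push hg e a b) = - C.number v (M.push hg e a b) := by
    have e4 : C.number v ((-1 : ℚ) • M.push hg e a b) = C.number v (M.push hg e a b) := by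
      rw [e1, e2]
      refine Finset.sum_congr rfl fun k _ => ?_
      rw [mul_comm]
      rfl
    unfold Tensors.number at e4 ⊢
    rw [map_smul, neg_smul, one_smul] at e4
    exact e4.symm
  have : (2 : ℂ) * C.number v (M.push hg e a b) = 0 := by
    rw [two_mul]
    nth_rewrite 1 [e3]
    exact neg_add_cancel _
  exact (mul_eq_zero.1 this).resolve_left two_ne_zero

theorem sum_zero {g₁ g₂ n₁ n₂ : ℕ} (h1 : Stable g₁ (n₁ + 1)) (h2 : Stable g₂ (n₂ + 1)) (i j : ℕ)
    (hi : Odd i) (hj : Odd j) (a : M.H g₁ (n₁ + 1)) (ha : M.HasDegree i a)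
    (b : M.H g₂ (n₂ + 1)) (hb : M.HasDegree j b) (v₁ : Fin n₁ → C.V) (v₂ : Fin n₂ → C.V)
    {d : ℕ} (x y : Module.Basis (Fin d) ℂ C.V) (hxy : AreDual C.toTensors x y) :
    ∑ i, C.number (C.append v₁ (x i)) a * C.number (C.append v₂ (y i)) b = 0 := by
  have h3 := sep_zero C (rfl : g₁ + g₂ = _) (finSumFinEquiv (m := n₁) (n := n₂)) h1 h2 i j hi hj a ha
    b hb (Sum.elim v₁ v₂ ∘ finSumFinEquiv.symm)
  rw [C.separating rfl _ h1 h2 d x y hxy] at h3
  have e1 : (Sum.elim v₁ v₂ ∘ finSumFinEquiv.symm) ∘ (finSumFinEquiv (m := n₁) (n := n₂)) ∘ Sum.inl =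
      v₁ := by
    funext k
    simp only [Function.comp_apply, Equiv.symm_apply_apply, Sum.elim_inl]
  have e2 : (Sum.elim v₁ v₂ ∘ finSumFinEquiv.symm) ∘ (finSumFinEquiv (m := n₁) (n := n₂)) ∘ Sum.inr =
      v₂ := by
    funext k
    simp only [Function.comp_apply, Equiv.symm_apply_apply, Sum.elim_inr]
  rw [e1, e2] at h3
  exact h3

/-- The exchange of the last two markings. -/
theorem snoc_swap {V : Type} {n : ℕ} (v : Fin n → V) (x y : V) :
    (Fin.snoc (Fin.snoc v x : Fin (n + 1) → V) y : Fin (n + 1 + 1) → V) ∘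
      (Equiv.swap (Fin.last n).castSucc (Fin.last (n + 1))) =
      Fin.snoc (Fin.snoc v y : Fin (n + 1) → V) x := by
  funext k
  simp only [Function.comp_apply]
  refine Fin.lastCases ?_ (fun k => ?_) k
  · rw [Equiv.swap_apply_right, Fin.snoc_castSucc, Fin.snoc_last, Fin.snoc_last]
  · refine Fin.lastCases ?_ (fun k => ?_) k
    · rw [Equiv.swap_apply_left, Fin.snoc_last, Fin.snoc_castSucc, Fin.snoc_last]
    · rw [Equiv.swap_apply_of_ne_of_ne, Fin.snoc_castSucc, Fin.snoc_castSucc, Fin.snoc_castSucc,
        Fin.snoc_castSucc]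
      · intro h
        have := congrArg Fin.val h
        simp only [Fin.val_castSucc, Fin.val_last] at this
        omega
      · intro h
        have := congrArg Fin.val h
        simp only [Fin.val_castSucc, Fin.val_last] at this
        omega

/-- The bilinear form `(x, y) ↦ Ω_{g,n+2}(v, x, y)(c)`. -/
noncomputable def form (g n : ℕ) (v : Fin n → C.V) (c : M.H g (n + 2)) : C.V →ₗ[ℂ] C.V →ₗ[ℂ] ℂ :=
  LinearMap.mk₂ ℂ (fun x y => C.Ω g (n + 2) (Fin.snoc (Fin.snoc v x : Fin (n + 1) → C.V) y) c)
    (by
      intro x x' y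
      have key := (C.Ω g (n + 2)).map_update_add
        (Fin.snoc (Fin.snoc v x : Fin (n + 1) → C.V) y) (Fin.last n).castSucc x x'
      have e1 : ∀ z : C.V, Function.update (Fin.snoc (Fin.snoc v x : Fin (n + 1) → C.V) y)
          (Fin.last n).castSucc z = (Fin.snoc (Fin.snoc v z : Fin (n + 1) → C.V) y : Fin (n + 2) → C.V) := by
        intro z
        rw [← Fin.snoc_update, Fin.update_snoc_last]
      rw [e1, e1, e1] at key
      exact congrArg (fun f => f c) key)
    (by
      intro r x y
      have key := (C.Ω g (n + 2)).map_update_smul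
        (Fin.snoc (Fin.snoc v x : Fin (n + 1) → C.V) y) (Fin.last n).castSucc r x
      have e1 : ∀ z : C.V, Function.update (Fin.snoc (Fin.snoc v x : Fin (n + 1) → C.V) y)
          (Fin.last n).castSucc z = (Fin.snoc (Fin.snoc v z : Fin (n + 1) → C.V) y : Fin (n + 2) → C.V) := by
        intro z
        rw [← Fin.snoc_update, Fin.update_snoc_last]
      rw [e1, e1] at key
      exact congrArg (fun f => f c) key)
    (by
      intro x y y'
      have key := (C.Ω g (n + 2)).map_update_add
        (Fin.snoc (Fin.snoc v x : Fin (n + 1) → C.V) y) (Fin.last (n + 1)) y y'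
      simp only [Fin.update_snoc_last] at key
      exact congrArg (fun f => f c) key)
    (by
      intro r x y
      have key := (C.Ω g (n + 2)).map_update_smul
        (Fin.snoc (Fin.snoc v x : Fin (n + 1) → C.V) y) (Fin.last (n + 1)) r y
      simp only [Fin.update_snoc_last] at key
      exact congrArg (fun f => f c) key)

theorem form_apply (g n : ℕ) (v : Fin n → C.V) (c : M.H g (n + 2)) (x y : C.V) :
    form C g n v c x y = C.number (C.append (C.append v x) y) c := rfl

/-- The classes `ρ_* c`, `c` of odd degree, are orthogonal to all CohFTs. -/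
theorem loop_zero (g n : ℕ) (h : Stable g (n + 2)) (k : ℕ) (hk : Odd k) (c : M.H g (n + 2))
    (hc : M.HasDegree k c) (v : Fin n → C.V) : C.number v (M.loop g n c) = 0 := by
  obtain ⟨d, x, y, hxy, hyx⟩ := exists_dual C
  rw [C.nonseparating g n h d x y hxy]
  set β := form C g n v c with hβ
  have h1 : ∀ s t : C.V, ∑ i, β s (x i) * β (y i) t = 0 := by
    intro s t
    have := sum_zero C (n₁ := n + 1) (n₂ := n + 1) h h k k hk hk c hc
      (M.relabel g (n + 2) (Equiv.swap (Fin.last n).castSucc (Fin.last (n + 1))) c)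
      ((M.isAction _ _ h).2.2 _ _ _ hc) (Fin.snoc v s) (Fin.snoc v t) x y hxy
    rw [← this]
    refine Finset.sum_congr rfl fun i _ => ?_
    congr 1
    rw [hβ, form_apply]
    unfold Tensors.append
    rw [← snoc_swap v (y i) t, C.equivariant g (n + 2) h]
  -- the operator `T` with `η (T s, t) = β (s, t)`
  let T : C.V →ₗ[ℂ] C.V := ∑ i, (β.flip (x i)).smulRight (y i)
  have hT : ∀ s, T s = ∑ i, β s (x i) • y i := by
    intro s
    simp only [T, LinearMap.sum_apply, LinearMap.smulRight_apply, LinearMap.flip_apply]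
  have hηT : ∀ s j, C.η (T s) (x j) = β s (x j) := by
    intro s j
    have hyx' : ∀ i, C.η (y i) (x j) = if i = j then 1 else 0 := fun i => hyx i j
    rw [hT, map_sum, LinearMap.sum_apply, Finset.sum_eq_single j]
    · rw [map_smul, LinearMap.smul_apply, hyx', if_pos rfl, smul_eq_mul, mul_one]
    · intro i _ hij
      rw [map_smul, LinearMap.smul_apply, hyx', if_neg hij, smul_zero]
    · intro hj
      exact absurd (Finset.mem_univ j) hj
  have hTT : T * T = 0 := by
    refine LinearMap.ext fun s => ?_
    rw [Module.End.mul_apply, LinearMap.zero_apply]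
    refine C.isForm.2 _ fun t => ?_
    have h2 : C.η (T (T s)) = 0 := by
      refine x.ext fun j => ?_
      rw [hηT, hT, map_sum, LinearMap.sum_apply, LinearMap.zero_apply, ← h1 s (x j)]
      refine Finset.sum_congr rfl fun i _ => ?_
      rw [map_smul, LinearMap.smul_apply, smul_eq_mul]
    unfold Tensors.form
    rw [h2, LinearMap.zero_apply]
  have htr : LinearMap.trace ℂ C.V T = 0 := by
    have hn : IsNilpotent T := ⟨2, by rw [pow_two]; exact hTT⟩
    exact (LinearMap.isNilpotent_trace_of_isNilpotent hn).eq_zero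
  have htr2 : LinearMap.trace ℂ C.V T = ∑ i, β (y i) (x i) := by
    rw [map_sum]
    refine Finset.sum_congr rfl fun i _ => ?_
    rw [LinearMap.trace_smulRight, LinearMap.flip_apply]
  -- the other order of the two markings
  have h3 : ∑ i, β (x i) (y i) = ∑ i, β (y i) (x i) := by
    have e1 := C.nonseparating g n h d x y hxy v c
    have e2 := C.nonseparating g n h d y x hyx v c
    rw [e1] at e2
    exact e2
  exact (h3.trans htr2.symm).trans htr

theorem number_zero {g n : ℕ} (v : Fin n → C.V) : C.number v (0 : M.H g n) = 0 := by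
  unfold Tensors.number
  rw [map_zero]

end proof

/-- **The intersection numbers with CohFTs do not determine the classes on `M̄_{g,n}`.**
1. For every separating gluing map `ξ` and all homology classes `a`, `b` of odd degree, the class
   `ξ_*(a × b)` is orthogonal to all classes of all CohFTs.
2. So is `ρ_* c`, for all `c` of odd degree and the nonseparating gluing maps `ρ`.
3. Negative answer to Q1: by the theorem of Graber and Pandharipande there are classes `A ≠ B` in
   `H_*(M̄_{2,20}; ℚ)`, and even classes of algebraic cycles, whose intersection numbers with every CohFT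
   agree. -/
theorem result (M : ModuliHomology) :
    (∀ (g n : ℕ) (A : M.H g n), IsOddSeparating A → SameNumbers A 0) ∧
    (∀ (g n : ℕ) (A : M.H (g + 1) n), IsOddNonseparating A → SameNumbers A 0) ∧
    (∀ P : Submodule ℚ (M.H 2 20), GraberPandharipande M P →
      (∃ A ∈ P, ∃ B ∈ P, A ≠ B ∧ SameNumbers A B) ∧ ¬ ClassesDetermined M) := by
  refine ⟨?_, ?_, ?_⟩
  · rintro g n A ⟨g₁, g₂, n₁, n₂, hg, e, i, j, a, b, h1, h2, hi, hj, ha, hb, rfl⟩ C v
    rw [number_zero]
    exact sep_zero C hg e h1 h2 i j hi hj a ha b hb v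
  · rintro g n A ⟨h, k, c, hk, hc, rfl⟩ C v
    rw [number_zero]
    exact loop_zero C g n h k hk c hc v
  rintro P ⟨A, hA, h0, hs⟩
  have h1 : Stable 1 (10 + 1) := by unfold Stable; omega
  have key : SameNumbers A 0 := by
    intro C v
    rw [number_zero]
    change C.Ω 2 20 v A = 0
    have hle : Submodule.span ℚ (elevenClasses M) ≤ LinearMap.ker (C.Ω 2 20 v) := by
      rw [Submodule.span_le]
      rintro _ ⟨a, b, ha, hb, rfl⟩
      exact LinearMap.mem_ker.2 (sep_zero C rfl finSumFinEquiv h1 h1 11 11 (by decide) (by decide) a ha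
        b hb v)
    exact LinearMap.mem_ker.1 (hle hs)
  exact ⟨⟨A, hA, 0, P.zero_mem, h0, key⟩, fun h => h0 (h 2 20 (by unfold Stable; omega) A 0 key)⟩

end Pool.Agent.Results.MP_bd1395_ag.OddClassesInvisible
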